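import Pool.Agent.Q41.SP.Stm2
import Pool.Agent.Q58.SU.Cent

/-!
# Project SP (helper41), job SP-L2: the centroid with additional bounds
-/

namespace Pool.Agent.Q229.SP

open Finset Pool.Agent.Q41.SU Pool.Agent.Q41.SP Pool.Agent.Q58.SU
open Pool.Agent.W277.UH (q₀)

section

variable {J : Type} [Fintype J] [DecidableEq J]

/-- expansion of the energy -/
lemma expand (of : J → J → ℝ) (A : J → ℝ) (g : ℝ) :
    ∑ l, ∑ m ∈ univ.erase l, (of l m - A l - A m + g) =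
      (∑ l, ∑ m ∈ univ.erase l, of l m) - 2 * ((Fintype.card J : ℝ) - 1) * ∑ l, A l +
        ∑ l : J, ∑ m ∈ univ.erase l, g := by
  rw [← sum_pair A, ← sum_sub_distrib, ← sum_add_distrib]
  refine sum_congr rfl fun l _ => ?_
  rw [← sum_sub_distrib, ← sum_add_distrib]
  refine sum_congr rfl fun m _ => ?_
  ring

/-- lower bound for the energy -/
lemma low (hN : 8 ≤ Fintype.card J) (of : J → J → ℝ) (A : J → ℝ) (R H g : ℝ) (hR : 0 ≤ R)
    (hH : 0 ≤ H) (hg : 0 ≤ g) (h00 : ∀ l m, l ≠ m → 0 ≤ of l m)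
    (C : Finset J) (hC : Fintype.card J < 2 * C.card) (hCo : ∀ l ∈ C, ∀ m ∈ C, l ≠ m → H ≤ of l m)
    (hA : ∀ l, 0 ≤ A l ∧ A l ≤ R) :
    (Fintype.card J : ℝ) ^ 2 / 5 * H - 2 * (Fintype.card J : ℝ) ^ 2 * R ≤
      ∑ l, ∑ m ∈ univ.erase l, (of l m - A l - A m + g) := by
  have hN8 : (8 : ℝ) ≤ Fintype.card J := by exact_mod_cast hN
  have hexp := expand of A g
  set N : ℝ := (Fintype.card J : ℝ) with hNdef
  have hsumA : ∑ l, A l ≤ N * R := by
    calc ∑ l, A l ≤ ∑ _l : J, R := sum_le_sum fun l _ => (hA l).2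
      _ = N * R := by rw [sum_const, nsmul_eq_mul, card_univ]
  have hsumA0 : 0 ≤ ∑ l, A l := sum_nonneg fun l _ => (hA l).1
  have hgs : 0 ≤ ∑ l : J, ∑ m ∈ univ.erase l, g :=
    sum_nonneg fun l _ => sum_nonneg fun m _ => hg
  have hc2 : N + 1 ≤ 2 * (C.card : ℝ) := by
    rw [hNdef]; exact_mod_cast hC
  have hin : (C.card : ℝ) * ((C.card : ℝ) - 1) * H ≤ ∑ l, ∑ m ∈ univ.erase l, of l m := by
    refine le_trans ?_ (sub_sum of h00 C (fun l => C.erase l) (fun l => notMem_erase l C))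
    have h1 : ∀ l ∈ C, ((C.card : ℝ) - 1) * H ≤ ∑ m ∈ C.erase l, of l m := by
      intro l hl
      have h2 : ∑ m ∈ C.erase l, H ≤ ∑ m ∈ C.erase l, of l m :=
        sum_le_sum fun m hm => hCo l hl m (mem_erase.mp hm).2 (Ne.symm (mem_erase.mp hm).1)
      rw [sum_const, nsmul_eq_mul, card_erase_of_mem hl] at h2
      have h3 : 1 ≤ C.card := card_pos.mpr ⟨l, hl⟩
      push_cast [Nat.cast_sub h3] at h2
      exact h2
    calc (C.card : ℝ) * ((C.card : ℝ) - 1) * H = ∑ _l ∈ C, ((C.card : ℝ) - 1) * H := by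
          rw [sum_const, nsmul_eq_mul]; ring
      _ ≤ _ := sum_le_sum h1
  have h1 : N ^ 2 / 5 ≤ (C.card : ℝ) * ((C.card : ℝ) - 1) := by nlinarith
  have h2 : N ^ 2 / 5 * H ≤ (C.card : ℝ) * ((C.card : ℝ) - 1) * H :=
    mul_le_mul_of_nonneg_right h1 hH
  have h3 : 2 * (N - 1) * ∑ l, A l ≤ 2 * N * (N * R) := by
    have : 2 * (N - 1) * ∑ l, A l ≤ 2 * N * ∑ l, A l :=
      mul_le_mul_of_nonneg_right (by linarith) hsumA0
    refine this.trans ?_
    apply mul_le_mul_of_nonneg_left hsumA (by linarith)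
  rw [hexp]
  nlinarith

/-- addition (a) -/
lemma addA (hN : 8 ≤ Fintype.card J) (o' of : J → J → ℝ) (τ A : J → ℝ) (R H g c : ℝ)
    (hR : 1 ≤ R) (hH : 0 ≤ H) (hg : 0 ≤ g) (hc : c ≤ 1) (h00 : ∀ l m, l ≠ m → 0 ≤ of l m)
    (heq : ∀ l m, o' l m = of l m + H - τ l - τ m) (hτ : ∀ l, 0 ≤ τ l)
    (C : Finset J) (hC : Fintype.card J < 2 * C.card) (hCo : ∀ l ∈ C, ∀ m ∈ C, l ≠ m → H ≤ of l m)
    (hA : ∀ l, 0 ≤ A l ∧ A l ≤ R)
    (hG : ∑ l, ∑ m ∈ univ.erase l, (of l m - A l - A m + g) ≤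
      c * (Fintype.card J : ℝ) ^ 2 * R) :
    ∑ l, ∑ m ∈ univ.erase l, o' l m ≤ 30 * (Fintype.card J : ℝ) ^ 2 * R := by
  have hN8 : (8 : ℝ) ≤ Fintype.card J := by exact_mod_cast hN
  have hlow := low hN of A R H g (by linarith) hH hg h00 C hC hCo hA
  set N : ℝ := (Fintype.card J : ℝ) with hNdef
  have hNR : 0 < N ^ 2 * R := by positivity
  have hH24 : H ≤ 24 * R := by
    by_contra hcon
    push Not at hcon
    have h4 : N ^ 2 / 5 * (24 * R) < N ^ 2 / 5 * H := by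
      apply mul_lt_mul_of_pos_left hcon; positivity
    have h5 : c * N ^ 2 * R ≤ N ^ 2 * R := by nlinarith
    nlinarith
  set w : J → ℝ := fun l => A l - τ l + (H - g) / 2 with hw
  have hid : ∑ l, ∑ m ∈ univ.erase l, (of l m - A l - A m + g) =
      (∑ l, ∑ m ∈ univ.erase l, o' l m) - 2 * (N - 1) * ∑ l, w l := by
    rw [← sum_pair w, ← sum_sub_distrib]
    refine sum_congr rfl fun l _ => ?_
    rw [← sum_sub_distrib]
    refine sum_congr rfl fun m _ => ?_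
    rw [heq l m, hw]
    ring
  have hws : ∑ l, w l ≤ N * (13 * R) := by
    calc ∑ l, w l ≤ ∑ _l : J, 13 * R := sum_le_sum fun l _ => by
          simp only [hw]
          have e1 := (hA l).2
          have e2 := hτ l
          linarith
      _ = N * (13 * R) := by rw [sum_const, nsmul_eq_mul, card_univ]
  have h1 : 2 * (N - 1) * ∑ l, w l ≤ 2 * (N - 1) * (N * (13 * R)) :=
    mul_le_mul_of_nonneg_left hws (by linarith)
  have h2 : 2 * (N - 1) * (N * (13 * R)) ≤ 26 * N ^ 2 * R := by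
    have : 0 ≤ N * R := by positivity
    nlinarith
  have h5 : c * N ^ 2 * R ≤ N ^ 2 * R := by nlinarith
  rw [hid] at hG
  nlinarith

/-- addition (b) -/
lemma addB (hN : 8 ≤ Fintype.card J) (o' of : J → J → ℝ) (τ A : J → ℝ) (R H g D : ℝ)
    (hR : 0 ≤ R) (hH : 0 ≤ H) (hg : 0 ≤ g) (hD : 1 ≤ D) (h00 : ∀ l m, l ≠ m → 0 ≤ of l m)
    (heq : ∀ l m, o' l m = of l m + H - τ l - τ m) (hτ : ∀ l, 0 ≤ τ l)
    (C : Finset J) (hC : Fintype.card J < 2 * C.card) (hCo : ∀ l ∈ C, ∀ m ∈ C, l ≠ m → H ≤ of l m)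
    (hA : ∀ l, 0 ≤ A l ∧ A l ≤ R)
    (hT : -(4 * (Fintype.card J : ℝ) ^ 2 * R / D) ≤
      ∑ l, ∑ m ∈ univ.erase l, (min (of l m) (D * R) - A l - A m + g)) :
    ∑ l, ∑ m ∈ univ.erase l, max 0 (o' l m - 33 * D * R) ≤
      17 * (∑ l, ∑ m ∈ univ.erase l, (of l m - A l - A m + g) +
        4 * (Fintype.card J : ℝ) ^ 2 * R / D) := by
  have hN8 : (8 : ℝ) ≤ Fintype.card J := by exact_mod_cast hN
  have hlow := low hN of A R H g hR hH hg h00 C hC hCo hA
  have hDR : R ≤ D * R := by nlinarith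
  have hsum : ∑ l, ∑ m ∈ univ.erase l, max 0 (of l m - D * R) ≤
      ∑ l, ∑ m ∈ univ.erase l, (of l m - A l - A m + g) +
        4 * (Fintype.card J : ℝ) ^ 2 * R / D := by
    have h1 : ∑ l, ∑ m ∈ univ.erase l, max 0 (of l m - D * R) =
        ∑ l, ∑ m ∈ univ.erase l, (of l m - A l - A m + g) -
        ∑ l, ∑ m ∈ univ.erase l, (min (of l m) (D * R) - A l - A m + g) := by
      rw [← sum_sub_distrib]
      refine sum_congr rfl fun l _ => ?_
      rw [← sum_sub_distrib]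
      refine sum_congr rfl fun m _ => ?_
      rcases le_total (of l m) (D * R) with h | h
      · rw [min_eq_left h, max_eq_left (by linarith)]
        ring
      · rw [min_eq_right h, max_eq_right (by linarith)]
        ring
    rw [h1]
    linarith
  have hnn : 0 ≤ ∑ l, ∑ m ∈ univ.erase l, max 0 (of l m - D * R) :=
    sum_nonneg fun l _ => sum_nonneg fun m _ => le_max_left _ _
  set N : ℝ := (Fintype.card J : ℝ) with hNdef
  by_cases hcase : H ≤ 32 * R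
  · have h1 : ∑ l, ∑ m ∈ univ.erase l, max 0 (o' l m - 33 * D * R) ≤
        ∑ l, ∑ m ∈ univ.erase l, max 0 (of l m - D * R) := by
      refine sum_le_sum fun l _ => sum_le_sum fun m _ => max_le_max le_rfl ?_
      rw [heq l m]
      have := hτ l
      have := hτ m
      linarith
    linarith
  · push Not at hcase
    have h1 : ∑ l, ∑ m ∈ univ.erase l, max 0 (o' l m - 33 * D * R) ≤
        ∑ l, ∑ m ∈ univ.erase l, (max 0 (of l m - D * R) + H) := by
      refine sum_le_sum fun l _ => sum_le_sum fun m _ => ?_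
      refine max_le ?_ ?_
      · have := le_max_left 0 (of l m - D * R)
        linarith
      · have := le_max_right 0 (of l m - D * R)
        rw [heq l m]
        have := hτ l
        have := hτ m
        linarith
    have h2 : ∑ l, ∑ m ∈ univ.erase l, (max 0 (of l m - D * R) + H) ≤
        ∑ l, ∑ m ∈ univ.erase l, max 0 (of l m - D * R) + N ^ 2 * H := by
      have h3 : ∑ l : J, ∑ m ∈ univ.erase l, H ≤ N ^ 2 * H := by
        calc ∑ l : J, ∑ m ∈ univ.erase l, H ≤ ∑ l : J, ∑ m : J, H := by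
              refine sum_le_sum fun l _ => ?_
              exact sum_le_sum_of_subset_of_nonneg (erase_subset _ _) fun _ _ _ => hH
          _ = N ^ 2 * H := by
              simp only [sum_const, nsmul_eq_mul, card_univ]
              rw [← hNdef]
              ring
      have h4 : ∑ l : J, ∑ m ∈ univ.erase l, (max 0 (of l m - D * R) + H) =
          ∑ l, ∑ m ∈ univ.erase l, max 0 (of l m - D * R) + ∑ l : J, ∑ m ∈ univ.erase l, H := by
        rw [← sum_add_distrib]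
        refine sum_congr rfl fun l _ => ?_
        rw [← sum_add_distrib]
      rw [h4]
      linarith
    have h3 : 2 * N ^ 2 * R ≤ N ^ 2 / 16 * H := by
      have : 0 ≤ N ^ 2 := sq_nonneg N
      nlinarith
    have h4 : 0 ≤ N ^ 2 * H := by positivity
    have h5 : 0 ≤ 4 * N ^ 2 * R / D := by positivity
    have h6 : N ^ 2 * H ≤ 8 * ∑ l, ∑ m ∈ univ.erase l, (of l m - A l - A m + g) := by
      linarith
    linarith

end

/-- job SP-L2 -/
theorem s_e2P : S_e2P := by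
  intro d hd
  have hd' : (2 : ℝ) ≤ d := by exact_mod_cast hd
  obtain ⟨κ, hκ⟩ : ∃ κ : ℝ, κ = 1 / (8 * d * (d + 1)) := ⟨_, rfl⟩
  obtain ⟨θ, hθ⟩ : ∃ θ : ℝ, θ = κ / 112 := ⟨_, rfl⟩
  obtain ⟨Q, hQ⟩ : ∃ Q : ℝ, Q = (q₀ d : ℝ) + 1 := ⟨_, rfl⟩
  have hκ0 : 0 < κ := by rw [hκ]; positivity
  have hκ1 : κ ≤ 1 := by
    rw [hκ, div_le_one (by positivity)]
    nlinarith
  have hθ0 : 0 < θ := by rw [hθ]; positivity
  have hQ0 : 0 < Q := by rw [hQ]; positivity
  obtain ⟨N₁, hN1⟩ := exists_nat_ge (2 * Q / θ)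
  refine ⟨N₁ + 8, κ / 16, κ * θ ^ 2 / (4 * Q), by positivity, by linarith, by positivity, ?_⟩
  intro J _ _ o hs h0 hu A R hA χ hχ hN
  obtain ⟨h, l₀, c1, c2⟩ := choice o h0 (by omega)
  have b1 : ∀ l m, l ≠ m → (0 : ℝ) ≤ (blow o h l₀ l m : ℝ) := fun l m hlm => by
    exact_mod_cast blow_nonneg hs h0 hu h l₀ l m hlm
  have b2 : ∀ l m, l ≠ m → (0 : ℝ) ≤ (o l m : ℝ) := fun l m hlm => by exact_mod_cast h0 l m hlm
  have b3 : ∀ l m, (blow o h l₀ l m : ℝ) = (o l m : ℝ) + (h : ℝ) - (tu o h l₀ l : ℝ) -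
      (tu o h l₀ m : ℝ) := by
    intro l m
    simp only [blow_tu]
    push_cast
    ring
  have b4 : ∀ l, (0 : ℝ) ≤ (tu o h l₀ l : ℝ) := fun l => by
    exact_mod_cast (tu_bd hs h0 hu h l₀ l).1
  have b5 : ∀ l ∈ (univ.filter fun m => m = l₀ ∨ (h : ℤ) ≤ o l₀ m),
      ∀ m ∈ (univ.filter fun m => m = l₀ ∨ (h : ℤ) ≤ o l₀ m), l ≠ m → (h : ℝ) ≤ (o l m : ℝ) := by
    intro l hl m hm hlm
    have := (blow_in hs h0 hu h l₀ l m (mem_filter.mp hl).2 (mem_filter.mp hm).2 hlm).2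
    exact_mod_cast this
  have hR0 : (0 : ℝ) ≤ R := Nat.cast_nonneg _
  have hAR : ∀ l, 0 ≤ A l ∧ A l ≤ R := by
    intro l
    refine ⟨(hA l).1, (hA l).2.trans ?_⟩
    rw [div_le_iff₀ (by linarith)]
    nlinarith
  have hg0 : (0 : ℝ) ≤ R / (d * ((d : ℝ) - 1)) := by
    apply div_nonneg hR0
    nlinarith
  refine ⟨h, l₀, fun l m hlm => blow_nonneg hs h0 hu h l₀ l m hlm,
    cnt_blow hs h0 hu h l₀ c1 c2, ?_, ?_⟩
  · intro hR hG
    refine ⟨?_, ?_⟩
    · refine core d hd κ θ Q hκ hθ (q := q₀ d) hQ (by omega) ?_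
        (fun l m => (blow o h l₀ l m : ℝ))
        (fun l m => (o l m : ℝ)) (fun l => (tu o h l₀ l : ℝ)) A R (by exact_mod_cast hR) h
        (Nat.cast_nonneg _) b1 b2 ?_ b3 b4 (univ.filter fun m => m = l₀ ∨ (h : ℤ) ≤ o l₀ m) c1 b5
        hA χ (hχ hR) hG
      · refine hN1.trans ?_
        exact_mod_cast (by omega : N₁ ≤ Fintype.card J)
      · intro l m
        simp only [hs l m]
    · exact addA (by omega) (fun l m => (blow o h l₀ l m : ℝ)) (fun l m => (o l m : ℝ))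
        (fun l => (tu o h l₀ l : ℝ)) A R h _ (κ / 16) (by exact_mod_cast hR) (Nat.cast_nonneg _)
        hg0 (by linarith) b2 b3 b4 (univ.filter fun m => m = l₀ ∨ (h : ℤ) ≤ o l₀ m) c1 b5 hAR hG
  · intro n hT
    exact addB (by omega) (fun l m => (blow o h l₀ l m : ℝ)) (fun l m => (o l m : ℝ))
        (fun l => (tu o h l₀ l : ℝ)) A R h _ ((d : ℝ) ^ n) hR0 (Nat.cast_nonneg _)
        hg0 (one_le_pow₀ (by linarith)) b2 b3 b4
        (univ.filter fun m => m = l₀ ∨ (h : ℤ) ≤ o l₀ m) c1 b5 hAR hT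

end Pool.Agent.Q229.SP
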