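import Pool.Agent.Q41.SP.Stm6

set_option autoImplicit false

/-! Project SP (helper41), job Y6: infinitely divisible elements are constant (helper229). -/

namespace Pool.Agent.Q229.SP

open Finset Polynomial
open Pool.Agent.Q41.SU Pool.Agent.Q41.SP

universe u

section rat

variable {k : Type u} [Field k] (l : ℕ) [Fact l.Prime] [CharP k l]

theorem inf_deg (r q : k[X]) (hr : r ≠ 0) (hq : q ≠ 0)
    (h : ∀ j : ℕ, ∃ r' q' : k[X], q' ≠ 0 ∧ r * q' ^ l ^ j = q * r' ^ l ^ j) :
    r.natDegree = q.natDegree := by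
  have hl : 2 ≤ l := (Fact.out : l.Prime).two_le
  obtain ⟨r', q', hq', e⟩ := h (r.natDegree + q.natDegree)
  have hN : r.natDegree + q.natDegree < l ^ (r.natDegree + q.natDegree) :=
    Nat.lt_pow_self (by omega)
  have hr' : r' ≠ 0 := by
    rintro rfl
    have hpos : l ^ (r.natDegree + q.natDegree) ≠ 0 := by positivity
    rw [zero_pow hpos, mul_zero] at e
    exact mul_ne_zero hr (pow_ne_zero _ hq') e
  have h1 := congrArg natDegree e
  rw [natDegree_mul hr (pow_ne_zero _ hq'), natDegree_mul hq (pow_ne_zero _ hr'), natDegree_pow,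
    natDegree_pow] at h1
  set L := l ^ (r.natDegree + q.natDegree) with hL
  rcases lt_trichotomy q'.natDegree r'.natDegree with h2 | h2 | h2
  · exfalso
    have h3 : L * (q'.natDegree + 1) ≤ L * r'.natDegree := Nat.mul_le_mul_left _ h2
    rw [Nat.mul_add, mul_one] at h3
    omega
  · rw [h2] at h1
    omega
  · exfalso
    have h3 : L * (r'.natDegree + 1) ≤ L * q'.natDegree := Nat.mul_le_mul_left _ h2
    rw [Nat.mul_add, mul_one] at h3
    omega

theorem inf_rat [IsAlgClosed k] (r q : k[X]) (hq : q ≠ 0)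
    (h : ∀ j : ℕ, ∃ r' q' : k[X], q' ≠ 0 ∧ r * q' ^ l ^ j = q * r' ^ l ^ j) :
    ∃ c : k, r = C c * q := by
  by_cases hr : r = 0
  · exact ⟨0, by simp [hr]⟩
  have hd := inf_deg l r q hr hq h
  refine ⟨r.leadingCoeff / q.leadingCoeff, ?_⟩
  by_contra hne
  set c := r.leadingCoeff / q.leadingCoeff with hc
  have hr1 : r - C c * q ≠ 0 := sub_ne_zero.2 hne
  have hd1 : (r - C c * q).natDegree = q.natDegree := by
    refine inf_deg l _ q hr1 hq ?_
    intro j
    obtain ⟨r', q', hq', e⟩ := h j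
    have hl : 2 ≤ l := (Fact.out : l.Prime).two_le
    obtain ⟨c', hc'⟩ := IsAlgClosed.exists_pow_nat_eq c (n := l ^ j) (pow_pos (by omega) j)
    refine ⟨r' - C c' * q', q', hq', ?_⟩
    haveI : CharP k[X] l := inferInstance
    rw [sub_pow_char_pow, mul_pow, ← C_pow, hc', sub_mul, e]
    ring
  have h2 : (r - C c * q).coeff q.natDegree = 0 := by
    rw [coeff_sub, coeff_C_mul, ← hd]
    rw [← leadingCoeff, hd, ← leadingCoeff, hc]
    have : q.leadingCoeff ≠ 0 := leadingCoeff_ne_zero.2 hq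
    field_simp
    ring
  rw [← hd1, ← leadingCoeff, leadingCoeff_eq_zero] at h2
  exact hr1 h2

end rat

theorem s_infP : S_infP.{u} := by
  intro l k E _ _ _ _ _ _ _ t G _ hG x hx
  classical
  let Pol : E → E[X] := fun y => ∏ g : G, (X - C ((g : E ≃ₐ[k] E) y))
  have hmap : ∀ (h : G) (y : E), (Pol y).map ((h : E ≃ₐ[k] E) : E →+* E) = Pol y := by
    intro h y
    simp only [Pol, Polynomial.map_prod, Polynomial.map_sub, map_X, map_C]
    refine Fintype.prod_equiv (Equiv.mulLeft h) _ _ ?_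
    intro g
    simp
  have hrat : ∀ (y : E) (i : ℕ), ∃ r q : k[X], q ≠ 0 ∧
      (Pol y).coeff i = aeval t r / aeval t q := by
    intro y i
    refine hG.rat _ ?_
    intro g hg
    have := congrArg (fun f : E[X] => f.coeff i) (hmap ⟨g, hg⟩ y)
    simpa [coeff_map] using this
  have hfr : ∀ (j : ℕ) (w : E), Pol (w ^ l ^ j) = (Pol w).map (iterateFrobenius E l j) := by
    intro j w
    simp only [Pol, Polynomial.map_prod, Polynomial.map_sub, map_X, map_C, map_pow,
      iterateFrobenius_def]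
  have hinj : Function.Injective (aeval t : k[X] →ₐ[k] E) :=
    transcendental_iff_injective.1 hG.trans
  have hne : ∀ q : k[X], q ≠ 0 → aeval t q ≠ 0 := fun q hq h0 => hq (hinj (by rw [h0, map_zero]))
  have hcoef : ∀ i : ℕ, ∃ c : k, (Pol x).coeff i = algebraMap k E c := by
    intro i
    obtain ⟨r, q, hq, e⟩ := hrat x i
    have key : ∀ j : ℕ, ∃ r' q' : k[X], q' ≠ 0 ∧ r * q' ^ l ^ j = q * r' ^ l ^ j := by
      intro j
      obtain ⟨w, hw⟩ := hx j
      obtain ⟨r', q', hq', e'⟩ := hrat w i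
      refine ⟨r', q', hq', hinj ?_⟩
      have h1 : (Pol x).coeff i = ((Pol w).coeff i) ^ l ^ j := by
        rw [hw, hfr, coeff_map, iterateFrobenius_def]
      rw [e, e', div_pow, div_eq_div_iff (hne q hq) (pow_ne_zero _ (hne q' hq'))] at h1
      rw [map_mul, map_mul, map_pow, map_pow, h1]
      ring
    obtain ⟨c, hc⟩ := inf_rat l r q hq key
    refine ⟨c, ?_⟩
    rw [e, hc, map_mul, aeval_C, mul_div_assoc, div_self (hne q hq), mul_one]
  choose c hc using hcoef
  let P₀ : k[X] := ∑ i ∈ range ((Pol x).natDegree + 1), C (c i) * X ^ i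
  have hP₀ : P₀.map (algebraMap k E) = Pol x := by
    simp only [P₀, Polynomial.map_sum, Polynomial.map_mul, map_C, Polynomial.map_pow, map_X, ← hc]
    exact ((Pol x).as_sum_range_C_mul_X_pow).symm
  have hmon : (Pol x).Monic := monic_prod_of_monic _ _ fun g _ => monic_X_sub_C _
  have hint : IsIntegral k x := by
    refine ⟨P₀, ?_, ?_⟩
    · exact (Polynomial.monic_map_iff (f := algebraMap k E)).1 (by rw [hP₀]; exact hmon)
    · rw [eval₂_eq_eval_map, hP₀, eval_prod]
      refine Finset.prod_eq_zero (Finset.mem_univ (1 : G)) ?_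
      simp
  have h1 : (minpoly k x).degree = 1 :=
    IsAlgClosed.degree_eq_one_of_irreducible k (minpoly.irreducible hint)
  obtain ⟨c', hc'⟩ := minpoly.mem_range_of_degree_eq_one k x h1
  exact ⟨c', hc'.symm⟩

end Pool.Agent.Q229.SP
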