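import Pool.Agent.Q41.SP.Stm6

set_option autoImplicit false

/-! Project SP (helper41), job Y7: roots of polynomials over `E ^ (l ^ K)` (helper229). -/

namespace Pool.Agent.Q229.SP

open Finset Polynomial
open Pool.Agent.Q41.SU Pool.Agent.Q41.SP

universe u

theorem s_rtP : S_rtP.{u} := by
  intro l K c E _ _ _ Ψ z hΨ hdeg hz
  by_cases hcK : K ≤ c
  · exact ⟨z, by rw [Nat.sub_eq_zero_of_le hcK]; simp⟩
  rw [not_le] at hcK
  let F := (iterateFrobenius E l K).fieldRange
  let φ : E →+* F := (iterateFrobenius E l K).rangeRestrictField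
  let Ψ' : F[X] := Ψ.map φ
  have hφ : (algebraMap F E).comp φ = iterateFrobenius E l K := by
    ext x
    rfl
  have hΨ' : Ψ' ≠ 0 := (Polynomial.map_ne_zero_iff φ.injective).2 hΨ
  have h0 : aeval z Ψ' = 0 := by
    rw [aeval_def, eval₂_eq_eval_map, Polynomial.map_map, hφ]
    exact hz
  haveI : ExpChar F l := (RingHom.expChar_iff (algebraMap F E) (algebraMap F E).injective l).2
    inferInstance
  have h1 : (minpoly F z).natSepDegree = 1 :=
    (minpoly.natSepDegree_eq_one_iff_pow_mem l).2 ⟨K, ⟨⟨z ^ l ^ K, ⟨z, rfl⟩⟩, rfl⟩⟩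
  obtain ⟨n, y, hy⟩ := (minpoly.natSepDegree_eq_one_iff_eq_X_pow_sub_C l).1 h1
  have hl : 2 ≤ l := (Fact.out : l.Prime).two_le
  have hpos : 0 < l ^ n := pow_pos (by omega) n
  have h2 : l ^ n ≤ l ^ c := by
    have h3 := natDegree_le_of_dvd (minpoly.dvd F z h0) hΨ'
    rw [hy, natDegree_X_pow_sub_C, natDegree_map] at h3
    exact h3.trans hdeg
  have hnc : n ≤ c := (Nat.pow_le_pow_iff_right (by omega)).1 h2
  have h3 : z ^ l ^ n = (y : E) := by
    have h4 := minpoly.aeval F z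
    rw [hy, map_sub, map_pow, aeval_X, aeval_C, sub_eq_zero] at h4
    exact h4
  obtain ⟨v, hv⟩ := y.2
  have hv' : z ^ l ^ n = v ^ l ^ K := by rw [h3, ← hv]; rfl
  have h5 : z = v ^ l ^ (K - n) := by
    apply (iterateFrobenius E l n).injective
    rw [iterateFrobenius_def, iterateFrobenius_def, hv', ← pow_mul, ← pow_add]
    congr 2
    omega
  refine ⟨v ^ l ^ (c - n), ?_⟩
  rw [h5, ← pow_mul, ← pow_add]
  congr 2
  omega

end Pool.Agent.Q229.SP
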