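import Pool.Agent.Q229.SP.Y9

set_option autoImplicit false

/-! Project SP (helper41), job Y8: choice of the frame (helper229). -/

namespace Pool.Agent.Q229.SP

open Finset Polynomial
open Pool.Agent.Q41.SU Pool.Agent.Q41.SP

universe u

variable {E : Type u} [Field E]

theorem nu_coeff1 (μ : Mb E) : (nu μ).coeff 1 = μ.α := by simp [nu]

theorem de_coeff1 (μ : Mb E) : (de μ).coeff 1 = μ.γ := by simp [de]

theorem madj_den (μ : Mb E) (x : E) : (madj μ).den x = μ.α - μ.γ * x := by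
  simp only [madj, Mb.den]; ring

theorem app_madj {μ : Mb E} (hμ : μ.det ≠ 0) {x : E} (hx : (madj μ).den x ≠ 0) :
    μ.den ((madj μ).app x) ≠ 0 ∧ μ.app ((madj μ).app x) = x := by
  obtain ⟨y, hy⟩ : ∃ y, y = (madj μ).app x := ⟨_, rfl⟩
  rw [← hy]
  have hyD : y * (μ.α - μ.γ * x) = μ.δ * x - μ.β := by
    rw [hy, Mb.app, madj_den] at *
    rw [div_mul_cancel₀ _ hx]
    simp only [madj]
    ring
  rw [madj_den] at hx
  have h1 : μ.den y * (μ.α - μ.γ * x) = μ.det := by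
    rw [Mb.den, Mb.det]
    linear_combination μ.γ * hyD
  have h2 : (μ.α * y + μ.β) * (μ.α - μ.γ * x) = μ.det * x := by
    rw [Mb.det]
    linear_combination μ.α * hyD
  have h3 : μ.den y ≠ 0 := by
    intro h0
    rw [h0, zero_mul] at h1
    exact hμ h1.symm
  refine ⟨h3, ?_⟩
  rw [Mb.app, div_eq_iff h3]
  apply mul_right_cancel₀ hx
  linear_combination h2 - x * h1

/-- transport of a value -/
theorem cj_app {d : ℕ} (hd : 1 ≤ d) {μ : Mb E} {p q p' q' : E[X]} (hpq : RM d p q)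
    (h : Cj d μ p q p' q') {z : E} (hz : μ.den z ≠ 0) (hq : q.eval (μ.app z) ≠ 0)
    (hv : (madj μ).den (p.eval (μ.app z) / q.eval (μ.app z)) ≠ 0) :
    q'.eval z ≠ 0 ∧
      p'.eval z / q'.eval z = (madj μ).app (p.eval (μ.app z) / q.eval (μ.app z)) := by
  obtain ⟨c, hc, e1, e2⟩ := cj_sc hd hpq h
  have g1 := congrArg (eval z) e1
  have g2 := congrArg (eval z) e2
  rw [hcm_eval (RM.dp hpq) hz] at g1
  rw [hcm_eval (RM.dq hpq) hz] at g2
  simp only [eval_mul, eval_add, eval_C] at g1 g2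
  set A := p'.eval z
  set B := q'.eval z
  set x := μ.app z
  have hdet := h.det
  have hdet' : μ.α * μ.δ - μ.β * μ.γ ≠ 0 := hdet
  rw [madj_den] at hv
  have hD : μ.den z ^ d ≠ 0 := pow_ne_zero _ hz
  have h1 : c * ((μ.α * μ.δ - μ.β * μ.γ) * B) =
      μ.den z ^ d * q.eval x * (μ.α - μ.γ * (p.eval x / q.eval x)) := by
    have : p.eval x = q.eval x * (p.eval x / q.eval x) := by field_simp
    linear_combination (-μ.α) * g2 + μ.γ * g1 - (μ.γ * μ.den z ^ d) * this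
  have h2 : c * ((μ.α * μ.δ - μ.β * μ.γ) * A) =
      μ.den z ^ d * q.eval x * (μ.δ * (p.eval x / q.eval x) - μ.β) := by
    have : p.eval x = q.eval x * (p.eval x / q.eval x) := by field_simp
    linear_combination (-μ.δ) * g1 + μ.β * g2 + (μ.δ * μ.den z ^ d) * this
  have hB : B ≠ 0 := by
    rintro h0
    rw [h0, mul_zero, mul_zero] at h1
    exact mul_ne_zero (mul_ne_zero hD hq) hv h1.symm
  refine ⟨hB, ?_⟩
  rw [Mb.app, madj_den, div_eq_div_iff hB hv]
  have h3 : c * (μ.α * μ.δ - μ.β * μ.γ) ≠ 0 := mul_ne_zero hc hdet'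
  apply mul_left_cancel₀ h3
  simp only [madj]
  linear_combination (μ.α - μ.γ * (p.eval x / q.eval x)) * h2 -
    (μ.δ * (p.eval x / q.eval x) - μ.β) * h1

theorem s_normP : S_normP.{u} := by
  intro l h d k E _ _ _ _ _ _ _ p q p₀ q₀ μ P hd hRM hP hO
  classical
  have hd1 : 1 ≤ d := by omega
  set f := iterateFrobenius E l h with hf
  have hRM0 : RM d p₀ q₀ := (rm_map f).1 hO.rm
  have hμ : μ.det ≠ 0 := hO.det
  have hl : 2 ≤ l := (Fact.out : l.Prime).two_le
  have hn : l ^ h ≠ 0 := by positivity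
  -- the choice of the constant
  let W : E[X] := (p₀ - X * q₀) * ∏ x ∈ P, (C (μ.α - μ.γ * x) * X ^ l ^ h + C (μ.β - μ.δ * x))
  have hW : W ≠ 0 := by
    refine mul_ne_zero ?_ (Finset.prod_ne_zero_iff.2 ?_)
    · intro h0
      have h1 : p₀ = X * q₀ := sub_eq_zero.1 h0
      have h2 : IsUnit q₀ := by
        have := hRM0.co
        rw [h1] at this
        exact this.isUnit_of_dvd' (Dvd.intro_left X rfl) dvd_rfl
      have h3 := natDegree_eq_zero_of_isUnit h2
      have h4 := hRM0.deg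
      have h5 : p₀.natDegree ≤ 1 := by
        rw [h1]
        refine natDegree_mul_le.trans ?_
        rw [h3, natDegree_X]
      omega
    · intro x _ h0
      have h1 := congrArg (fun F : E[X] => F.coeff (l ^ h)) h0
      have h2 := congrArg (fun F : E[X] => F.coeff 0) h0
      simp only [coeff_add, coeff_C_mul, coeff_X_pow, coeff_C, coeff_zero, if_neg hn,
        if_neg hn.symm, if_true, mul_one, mul_zero, add_zero, zero_add] at h1 h2
      apply hμ
      rw [Mb.det]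
      linear_combination μ.δ * h1 - μ.γ * h2
  obtain ⟨c₀, hc₀⟩ : ∃ c₀ : k, W.eval (algebraMap k E c₀) ≠ 0 := by
    by_contra hcon
    push Not at hcon
    apply hW
    haveI : Infinite k := IsAlgClosed.instInfinite
    refine Polynomial.eq_zero_of_infinite_isRoot W ?_
    exact Set.infinite_of_injective_forall_mem (algebraMap k E).injective hcon
  set a := algebraMap k E c₀ with ha
  have hc1 : p₀.eval a - a * q₀.eval a ≠ 0 := by
    intro h0
    apply hc₀
    simp only [W, eval_mul, eval_sub, eval_X]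
    rw [h0, zero_mul]
  have hc2 : ∀ x ∈ P, (μ.α - μ.γ * x) * a ^ l ^ h + (μ.β - μ.δ * x) ≠ 0 := by
    intro x hx h0
    apply hc₀
    simp only [W, eval_mul, eval_prod]
    rw [Finset.prod_eq_zero hx, mul_zero]
    simpa using h0
  let κ₀ : Mb E := ⟨a, 1, 1, 0⟩
  have hκ₀ : κ₀.det ≠ 0 := by
    simp [κ₀, Mb.det]
  let ρ : Mb E := ⟨0, 1, 1, -a⟩
  have hρ : ρ.det ≠ 0 := by
    simp [ρ, Mb.det]
  let p₁ : E[X] := hcm d q₀ (nu κ₀) (de κ₀)
  let q₁ : E[X] := hcm d p₀ (nu κ₀) (de κ₀) - C a * hcm d q₀ (nu κ₀) (de κ₀)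
  have hRM1 : RM d p₁ q₁ := by
    have h1 := rm_lin (rm_hcm hd1 hRM0 hκ₀) hρ
    have e1 : C ρ.α * hcm d p₀ (nu κ₀) (de κ₀) + C ρ.β * hcm d q₀ (nu κ₀) (de κ₀) = p₁ := by
      simp [ρ, p₁]
    have e2 : C ρ.γ * hcm d p₀ (nu κ₀) (de κ₀) + C ρ.δ * hcm d q₀ (nu κ₀) (de κ₀) = q₁ := by
      simp [ρ, q₁, sub_eq_add_neg]
    rwa [e1, e2] at h1
  have hCj0 : Cj d κ₀ p₀ q₀ p₁ q₁ := by
    refine cj_of_sc hκ₀ hRM1 1 ?_ ?_
    · simp [κ₀, p₁, q₁]
    · simp [κ₀, p₁]
  have hCj1 := cj_map f hCj0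
  set μ' := mcomp μ (mmap f κ₀) with hμ'
  have hCj : Cj d μ' p q (p₁.map f) (q₁.map f) := cj_comp hd1 hRM hO hCj1
  have hdet' : μ'.det ≠ 0 := hCj.det
  have hden : ∀ x ∈ P, (madj μ').den x ≠ 0 := by
    intro x hx h0
    apply hc2 x hx
    rw [madj_den] at h0
    have h1 : f a = a ^ l ^ h := rfl
    have h2 : μ'.α - μ'.γ * x = (μ.α - μ.γ * x) * a ^ l ^ h + (μ.β - μ.δ * x) := by
      simp only [hμ', mcomp, mmap, κ₀, map_one, map_zero, h1]
      ring
    rw [← h2]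
    exact h0
  refine ⟨μ', p₁, q₁, P.image (fun x => (madj μ').app x), hCj, ?_, ?_, ?_, ?_⟩
  · apply le_antisymm (RM.dq hRM1)
    apply le_natDegree_of_ne_zero
    have hco : ∀ A : E[X], A.natDegree ≤ d → (hcm d A (nu κ₀) (de κ₀)).coeff d = A.eval a := by
      intro A hA
      have h1 := Pool.Agent.Q153.SU.hcm_coeff (d := d) (A := A) (nu_deg κ₀) (de_deg κ₀)
      rw [one_mul] at h1
      rw [h1, eval_eq_sum_range' (Nat.lt_succ_of_le hA)]
      refine Finset.sum_congr rfl fun i _ => ?_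
      rw [nu_coeff1, de_coeff1]
      simp [κ₀]
    show (hcm d p₀ (nu κ₀) (de κ₀) - C a * hcm d q₀ (nu κ₀) (de κ₀)).coeff d ≠ 0
    rw [coeff_sub, coeff_C_mul, hco p₀ (RM.dp hRM0), hco q₀ (RM.dq hRM0)]
    exact hc1
  · apply Finset.card_image_of_injOn
    intro x hx y hy hxy
    have h1 := (app_madj hdet' (hden x hx)).2
    have h2 := (app_madj hdet' (hden y hy)).2
    have hxy' : (madj μ').app x = (madj μ').app y := hxy
    rw [← h1, hxy', h2]
  · intro z hz
    obtain ⟨x, hx, rfl⟩ := Finset.mem_image.1 hz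
    obtain ⟨h1, h2⟩ := app_madj hdet' (hden x hx)
    obtain ⟨h3, h4⟩ := hP x hx
    have h5 := cj_app hd1 hRM hCj h1 (by rw [h2]; exact h3) (by rw [h2]; exact hden _ h4)
    rw [h2] at h5
    exact ⟨h5.1, Finset.mem_image.2 ⟨_, h4, h5.2.symm⟩⟩
  · intro z hz
    obtain ⟨x, hx, rfl⟩ := Finset.mem_image.1 hz
    obtain ⟨h1, h2⟩ := app_madj hdet' (hden x hx)
    exact ⟨h1, by rw [h2]; exact hx⟩

end Pool.Agent.Q229.SP
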