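import Pool.Agent.Q229.SP.Frm

set_option autoImplicit false

/-! Project SP (helper41), job Y9: change of frames and Frobenius twists (helper229). -/

namespace Pool.Agent.Q229.SP

open Finset Polynomial
open Pool.Agent.Q41.SU Pool.Agent.Q41.SP
open Pool.Agent.W277.UH (ConjConst)

universe u

theorem hc_eq {E : Type u} [Field E] (d : ℕ) (A u v : E[X]) :
    Pool.Agent.W277.UH.hc d A u v = hcm d A u v := by
  simp [Pool.Agent.W277.UH.hc, Pool.Agent.W277.UH.hev, hcm, coeff_map]

/-- the adjugate matrix -/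
def madj {E : Type u} [Field E] (μ : Mb E) : Mb E := ⟨μ.δ, -μ.β, -μ.γ, μ.α⟩

theorem det_madj {E : Type u} [Field E] (μ : Mb E) : (madj μ).det = μ.det := by
  simp only [madj, Mb.det]
  ring

theorem cj_inv {E : Type u} [Field E] {d : ℕ} (hd : 1 ≤ d) {μ : Mb E} {p q p' q' : E[X]}
    (hpq : RM d p q) (h : Cj d μ p q p' q') : ∃ c : E, c ≠ 0 ∧
      hcm d p' (nu (madj μ)) (de (madj μ)) = C c * (C μ.δ * p - C μ.β * q) ∧
      hcm d q' (nu (madj μ)) (de (madj μ)) = C c * (-(C μ.γ * p) + C μ.α * q) := by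
  obtain ⟨c, hc, e1, e2⟩ := cj_sc hd hpq h
  have hdet := h.det
  have hdet' : (madj μ).det ≠ 0 := by rw [det_madj]; exact hdet
  have key : ∀ A : E[X], A.natDegree ≤ d →
      hcm d (hcm d A (nu μ) (de μ)) (nu (madj μ)) (de (madj μ)) = C (μ.det ^ d) * A := by
    intro A hA
    rw [← hcm_mcomp μ (madj μ) hdet']
    have h1 : nu (mcomp μ (madj μ)) = C μ.det * X := by
      simp only [nu, mcomp, madj, Mb.det, C_add, C_mul, C_neg, C_sub]
      ring
    have h2 : de (mcomp μ (madj μ)) = C μ.det * 1 := by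
      simp only [de, mcomp, madj, Mb.det, C_add, C_mul, C_neg, C_sub]
      ring
    rw [h1, h2, hcm_scale, hcm_X hA]
  have k1 := key p (RM.dp hpq)
  have k2 := key q (RM.dq hpq)
  rw [e1, hcm_Cmul, hcm_lin] at k1
  rw [e2, hcm_Cmul, hcm_lin] at k2
  set P' := hcm d p' (nu (madj μ)) (de (madj μ)) with hP'
  set Q' := hcm d q' (nu (madj μ)) (de (madj μ)) with hQ'
  have hC : C μ.α * C μ.δ - C μ.β * C μ.γ = (C μ.det : E[X]) := by
    rw [Mb.det, C_sub, C_mul, C_mul]
  have hcd : (C (c * μ.det) : E[X]) ≠ 0 := by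
    rw [Ne, C_eq_zero]
    exact mul_ne_zero hc hdet
  refine ⟨μ.det ^ d / (c * μ.det), div_ne_zero (pow_ne_zero _ hdet) (mul_ne_zero hc hdet), ?_, ?_⟩
  · apply mul_left_cancel₀ hcd
    rw [← mul_assoc, ← C_mul, mul_div_cancel₀ _ (mul_ne_zero hc hdet)]
    rw [C_mul, ← hC]
    linear_combination C μ.δ * k1 - C μ.β * k2
  · apply mul_left_cancel₀ hcd
    rw [← mul_assoc, ← C_mul, mul_div_cancel₀ _ (mul_ne_zero hc hdet)]
    rw [C_mul, ← hC]
    linear_combination C μ.α * k2 - C μ.γ * k1

theorem s_ovP : S_ovP.{u} := by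
  intro l K h d k E _ _ _ _ _ _ p q p₀ q₀ hd hRM
  refine ⟨?_, ?_, ?_⟩
  · intro μ p₂ q₂ hO
    refine ⟨mmap (iterateFrobenius E l h) μ, ?_⟩
    have h1 := cj_map (iterateFrobenius E l h) hO
    unfold Ov
    rw [Polynomial.map_map, Polynomial.map_map, ← iterateFrobenius_add, Nat.add_comm h K] at h1
    exact h1
  · rintro μ hO K' ⟨μ₂, a, b, h2⟩
    exact ⟨mcomp μ μ₂, a, b, cj_comp hd hRM hO h2⟩
  · rintro μ hO ⟨a, b, c, e, hdet, u, w, hne, hu, hw, hid⟩
    obtain ⟨κ, hκ, k1, k2⟩ := cj_inv hd hRM hO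
    set f := iterateFrobenius E l h with hf
    have hdet' : (madj μ).det ≠ 0 := by rw [det_madj]; exact hO.det
    let M : Mb E := mcomp (mmap f ⟨a, b, c, e⟩) (madj μ)
    have hM : M.det ≠ 0 := by
      rw [det_mcomp, det_mmap]
      exact mul_ne_zero ((map_ne_zero f).2 hdet) hdet'
    refine ⟨M.α, M.β, M.γ, M.δ, hM, u.map (iterateFrobenius k l h), w.map (iterateFrobenius k l h),
      ?_, ?_, ?_, ?_⟩
    · rcases hne with h1 | h1
      · exact Or.inl ((Polynomial.map_ne_zero_iff (iterateFrobenius k l h).injective).2 h1)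
      · exact Or.inr ((Polynomial.map_ne_zero_iff (iterateFrobenius k l h).injective).2 h1)
    · exact natDegree_map_le.trans hu
    · exact natDegree_map_le.trans hw
    · have hcomm : ∀ g : k[X], (g.map (algebraMap k E)).map f =
          (g.map (iterateFrobenius k l h)).map (algebraMap k E) := by
        intro g
        rw [Polynomial.map_map, Polynomial.map_map]
        congr 1
        exact ((algebraMap k E).iterateFrobenius_comm l h).symm
      rw [hc_eq, hc_eq] at hid ⊢
      have h1 := congrArg (Polynomial.map f) hid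
      simp only [Polynomial.map_mul, hcm_map, Polynomial.map_add, map_C, map_X, hcomm] at h1
      have hp' : (p₀.map f).natDegree ≤ d := RM.dp hO.rm
      have hq' : (q₀.map f).natDegree ≤ d := RM.dq hO.rm
      have hl : ∀ x y : E, (C x * p₀.map f + C y * q₀.map f).natDegree ≤ d := fun x y =>
        (natDegree_add_le _ _).trans (max_le ((natDegree_C_mul_le _ _).trans hp')
          ((natDegree_C_mul_le _ _).trans hq'))
      have hh : ∀ (W : E[X]) (x y z v : E), (hcm d W (C x * X + C y) (C z * X + C v)).natDegree ≤ d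
          := by
        intro W x y z v
        have := Pool.Agent.Q153.SU.hcm_natDegree (d := d) (A := W) (lin_deg x y) (lin_deg z v)
        omega
      have h2 := congrArg (fun F : E[X] => hcm (d + d) F (nu (madj μ)) (de (madj μ))) h1
      rw [hcm_mul (hl _ _) (hh _ _ _ _ _) (de_ne hdet'),
        hcm_mul (hl _ _) (hh _ _ _ _ _) (de_ne hdet'), hcm_lin, hcm_lin] at h2
      have h3 : ∀ W : E[X], hcm d (hcm d W (C (f a) * X + C (f b)) (C (f c) * X + C (f e)))
          (nu (madj μ)) (de (madj μ)) = hcm d W (C M.α * X + C M.β) (C M.γ * X + C M.δ) := by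
        intro W
        exact (hcm_mcomp (mmap f ⟨a, b, c, e⟩) (madj μ) hdet').symm
      rw [h3, h3, k1, k2] at h2
      have hκ' : (C κ : E[X]) ≠ 0 := by rwa [Ne, C_eq_zero]
      apply mul_left_cancel₀ hκ'
      have e1 : (C M.α : E[X]) = C (f a) * C μ.δ - C (f b) * C μ.γ := by
        simp only [M, mcomp, mmap, madj, C_add, C_mul, C_neg]; ring
      have e2 : (C M.β : E[X]) = - (C (f a) * C μ.β) + C (f b) * C μ.α := by
        simp only [M, mcomp, mmap, madj, C_add, C_mul, C_neg]; ring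
      have e3 : (C M.γ : E[X]) = C (f c) * C μ.δ - C (f e) * C μ.γ := by
        simp only [M, mcomp, mmap, madj, C_add, C_mul, C_neg]; ring
      have e4 : (C M.δ : E[X]) = - (C (f c) * C μ.β) + C (f e) * C μ.α := by
        simp only [M, mcomp, mmap, madj, C_add, C_mul, C_neg]; ring
      generalize hcm d ((w.map (iterateFrobenius k l h)).map (algebraMap k E))
        (C M.α * X + C M.β) (C M.γ * X + C M.δ) = Wp at h2 ⊢
      generalize hcm d ((u.map (iterateFrobenius k l h)).map (algebraMap k E))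
        (C M.α * X + C M.β) (C M.γ * X + C M.δ) = Up at h2 ⊢
      rw [e1, e2, e3, e4]
      linear_combination h2

end Pool.Agent.Q229.SP
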