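import Pool.Agent.Q41.SP.Stm6
import Pool.Agent.Q153.SU.Hcm
import Pool.Agent.Q144.SU.Gen
import Pool.Agent.Q151.SP.ItP

set_option autoImplicit false

/-! Project SP (helper41): frames, basic theory (helper229). -/

namespace Pool.Agent.Q229.SP

open Finset Polynomial
open Pool.Agent.Q41.SU Pool.Agent.Q41.SP
open Pool.Agent.Q153.SU (hcm_spec am_inj am_ne)

universe u v

variable {E : Type u} [Field E]

theorem hcm_add (d : ℕ) (A B u v : E[X]) : hcm d (A + B) u v = hcm d A u v + hcm d B u v := by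
  simp only [hcm, coeff_add, C_add, add_mul, Finset.sum_add_distrib]

theorem hcm_Cmul (d : ℕ) (a : E) (A u v : E[X]) : hcm d (C a * A) u v = C a * hcm d A u v := by
  simp only [hcm, coeff_C_mul, C_mul, mul_assoc, Finset.mul_sum]

theorem hcm_lin (d : ℕ) (a b : E) (A B u v : E[X]) :
    hcm d (C a * A + C b * B) u v = C a * hcm d A u v + C b * hcm d B u v := by
  rw [hcm_add, hcm_Cmul, hcm_Cmul]

theorem hcm_map {F : Type v} [Field F] (f : E →+* F) (d : ℕ) (A u v : E[X]) :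
    (hcm d A u v).map f = hcm d (A.map f) (u.map f) (v.map f) := by
  simp [hcm, Polynomial.map_sum, coeff_map]

theorem hcm_X {d : ℕ} {A : E[X]} (h : A.natDegree ≤ d) : hcm d A X 1 = A := by
  rw [hcm, A.as_sum_range_C_mul_X_pow' (Nat.lt_succ_of_le h)]
  refine Finset.sum_congr rfl fun i _ => ?_
  rw [← A.as_sum_range_C_mul_X_pow' (Nat.lt_succ_of_le h), one_pow, mul_one]

theorem hcm_scale (d : ℕ) (A : E[X]) (c : E) (u v : E[X]) :
    hcm d A (C c * u) (C c * v) = C (c ^ d) * hcm d A u v := by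
  rw [hcm, hcm, Finset.mul_sum]
  refine Finset.sum_congr rfl fun i hi => ?_
  have hi' : i ≤ d := Nat.lt_succ_iff.mp (Finset.mem_range.mp hi)
  have h1 : c ^ d = c ^ i * c ^ (d - i) := by
    rw [← pow_add, show i + (d - i) = d by omega]
  rw [h1, mul_pow, mul_pow, C_mul, C_pow, C_pow]
  ring

theorem hcm_mul {d₁ d₂ : ℕ} {A B u v : E[X]} (hA : A.natDegree ≤ d₁) (hB : B.natDegree ≤ d₂)
    (hv : v ≠ 0) : hcm (d₁ + d₂) (A * B) u v = hcm d₁ A u v * hcm d₂ B u v := by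
  apply am_inj
  rw [map_mul, hcm_spec hv (natDegree_mul_le.trans (by omega)), hcm_spec hv hA, hcm_spec hv hB,
    map_mul]
  ring

theorem hcm_one_lin (a b : E) (s t : E[X]) : hcm 1 (C a * X + C b) s t = C a * s + C b * t := by
  rw [hcm, Finset.sum_range_succ, Finset.sum_range_one]
  simp
  ring

theorem hcm_hcm {d : ℕ} {A u v s t : E[X]} (hu : u.natDegree ≤ 1) (hv : v.natDegree ≤ 1)
    (ht : t ≠ 0) : hcm d (hcm d A u v) s t = hcm d A (hcm 1 u s t) (hcm 1 v s t) := by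
  apply am_inj
  have hdeg : (hcm d A u v).natDegree ≤ d := by
    have := Pool.Agent.Q153.SU.hcm_natDegree (d := d) (A := A) hu hv
    omega
  rw [hcm_spec ht hdeg, hcm, hcm, map_sum, map_sum, Finset.mul_sum]
  refine Finset.sum_congr rfl fun i hi => ?_
  have hi' : i ≤ d := Nat.lt_succ_iff.mp (Finset.mem_range.mp hi)
  rw [map_mul, map_mul, map_mul, map_mul, map_pow, map_pow, map_pow, map_pow,
    hcm_spec ht hu, hcm_spec ht hv, aeval_C, pow_one, mul_pow, mul_pow]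
  have h1 : algebraMap E[X] (RatFunc E) t ^ d = algebraMap E[X] (RatFunc E) t ^ i *
      algebraMap E[X] (RatFunc E) t ^ (d - i) := by
    rw [← pow_add, show i + (d - i) = d by omega]
  rw [h1, show algebraMap E[X] (RatFunc E) (C (A.coeff i)) = algebraMap E (RatFunc E) (A.coeff i)
    from (IsScalarTower.algebraMap_apply E E[X] (RatFunc E) _).symm]
  ring

/-- the numerator of a Moebius map -/
noncomputable def nu (μ : Mb E) : E[X] := C μ.α * X + C μ.β

/-- the denominator of a Moebius map -/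
noncomputable def de (μ : Mb E) : E[X] := C μ.γ * X + C μ.δ

theorem lin_deg (a b : E) : (C a * X + C b : E[X]).natDegree ≤ 1 := by
  refine (natDegree_add_le _ _).trans (max_le ?_ (by simp))
  exact (natDegree_C_mul_le _ _).trans natDegree_X_le

theorem nu_deg (μ : Mb E) : (nu μ).natDegree ≤ 1 := lin_deg _ _

theorem de_deg (μ : Mb E) : (de μ).natDegree ≤ 1 := lin_deg _ _

theorem de_ne {μ : Mb E} (h : μ.det ≠ 0) : de μ ≠ 0 := by
  intro h0
  apply h
  have h1 : μ.γ = 0 := by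
    have := congrArg (fun f : E[X] => f.coeff 1) h0
    simpa [de] using this
  have h2 : μ.δ = 0 := by
    have := congrArg (fun f : E[X] => f.coeff 0) h0
    simpa [de] using this
  rw [Mb.det, h1, h2]
  ring

theorem nd_co {μ : Mb E} (h : μ.det ≠ 0) : IsCoprime (nu μ) (de μ) := by
  refine ⟨C (-(μ.γ / μ.det)), C (μ.α / μ.det), ?_⟩
  have h1 : C (-(μ.γ / μ.det)) * nu μ + C (μ.α / μ.det) * de μ = C ((μ.det)⁻¹ * μ.det) := by
    rw [nu, de, Mb.det]
    simp only [C_mul, C_neg, C_sub, div_eq_mul_inv]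
    ring
  rw [h1, inv_mul_cancel₀ h, C_1]

theorem nd_deg {μ : Mb E} (h : μ.det ≠ 0) : max (nu μ).natDegree (de μ).natDegree = 1 := by
  apply le_antisymm (max_le (nu_deg μ) (de_deg μ))
  by_contra hcon
  have h0 : max (nu μ).natDegree (de μ).natDegree = 0 := by omega
  have h1 : (nu μ).natDegree = 0 := by omega
  have h2 : (de μ).natDegree = 0 := by omega
  have h3 : (nu μ).coeff 1 = 0 := coeff_eq_zero_of_natDegree_lt (by omega)
  have h4 : (de μ).coeff 1 = 0 := coeff_eq_zero_of_natDegree_lt (by omega)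
  have h5 : μ.α = 0 := by simpa [nu] using h3
  have h6 : μ.γ = 0 := by simpa [de] using h4
  apply h
  rw [Mb.det, h5, h6]
  ring

theorem RM.dp {d : ℕ} {p q : E[X]} (h : RM d p q) : p.natDegree ≤ d := h.deg ▸ le_max_left _ _

theorem RM.dq {d : ℕ} {p q : E[X]} (h : RM d p q) : q.natDegree ≤ d := h.deg ▸ le_max_right _ _

theorem rm_hcm {d : ℕ} (hd : 1 ≤ d) {p q : E[X]} (h : RM d p q) {μ : Mb E} (hμ : μ.det ≠ 0) :
    RM d (hcm d p (nu μ) (de μ)) (hcm d q (nu μ) (de μ)) := by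
  have hc := Pool.Agent.Q144.SU.coeff_of_max hd h.deg
  refine ⟨Pool.Agent.Q144.SU.coprime_hcm (RM.dp h) (RM.dq h) hc h.co (nd_co hμ), ?_⟩
  have := Pool.Agent.Q144.SU.deg_hcm (RM.dp h) (RM.dq h) hc h.co le_rfl (nd_deg hμ)
  rw [this, mul_one]

theorem rm_lin {d : ℕ} {p q : E[X]} (h : RM d p q) {μ : Mb E} (hμ : μ.det ≠ 0) :
    RM d (C μ.α * p + C μ.β * q) (C μ.γ * p + C μ.δ * q) := by
  have e1 : C (μ.δ / μ.det) * (C μ.α * p + C μ.β * q) - C (μ.β / μ.det) * (C μ.γ * p + C μ.δ * q) =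
      p := by
    have : C (μ.δ / μ.det) * (C μ.α * p + C μ.β * q) -
        C (μ.β / μ.det) * (C μ.γ * p + C μ.δ * q) = C ((μ.det)⁻¹ * μ.det) * p := by
      rw [Mb.det]
      simp only [C_mul, C_sub, div_eq_mul_inv]
      ring
    rw [this, inv_mul_cancel₀ hμ, C_1, one_mul]
  have e2 : C (μ.α / μ.det) * (C μ.γ * p + C μ.δ * q) - C (μ.γ / μ.det) * (C μ.α * p + C μ.β * q) =
      q := by
    have : C (μ.α / μ.det) * (C μ.γ * p + C μ.δ * q) -
        C (μ.γ / μ.det) * (C μ.α * p + C μ.β * q) = C ((μ.det)⁻¹ * μ.det) * q := by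
      rw [Mb.det]
      simp only [C_mul, C_sub, div_eq_mul_inv]
      ring
    rw [this, inv_mul_cancel₀ hμ, C_1, one_mul]
  have l1 : ∀ a b : E, ∀ A B : E[X], ∀ n : ℕ, A.natDegree ≤ n → B.natDegree ≤ n →
      (C a * A + C b * B).natDegree ≤ n := fun a b A B n hA hB =>
    (natDegree_add_le _ _).trans (max_le ((natDegree_C_mul_le _ _).trans hA)
      ((natDegree_C_mul_le _ _).trans hB))
  have l2 : ∀ a b : E, ∀ A B : E[X], ∀ n : ℕ, A.natDegree ≤ n → B.natDegree ≤ n →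
      (C a * A - C b * B).natDegree ≤ n := fun a b A B n hA hB =>
    (natDegree_sub_le _ _).trans (max_le ((natDegree_C_mul_le _ _).trans hA)
      ((natDegree_C_mul_le _ _).trans hB))
  constructor
  · obtain ⟨x, y, hxy⟩ := h.co
    refine ⟨x * C (μ.δ / μ.det) - y * C (μ.γ / μ.det), y * C (μ.α / μ.det) - x * C (μ.β / μ.det), ?_⟩
    calc _ = x * (C (μ.δ / μ.det) * (C μ.α * p + C μ.β * q) -
          C (μ.β / μ.det) * (C μ.γ * p + C μ.δ * q)) + y * (C (μ.α / μ.det) * (C μ.γ * p + C μ.δ * q)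
          - C (μ.γ / μ.det) * (C μ.α * p + C μ.β * q)) := by ring
      _ = 1 := by rw [e1, e2, hxy]
  · apply le_antisymm (max_le (l1 _ _ _ _ _ (RM.dp h) (RM.dq h)) (l1 _ _ _ _ _ (RM.dp h) (RM.dq h)))
    conv_lhs => rw [← h.deg]
    refine max_le ?_ ?_
    · rw [← e1]
      exact l2 _ _ _ _ _ (by rw [e1]; exact le_max_left _ _) (by rw [e1]; exact le_max_right _ _)
    · rw [← e2]
      exact l2 _ _ _ _ _ (by rw [e2]; exact le_max_right _ _) (by rw [e2]; exact le_max_left _ _)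

theorem rm_assoc {d : ℕ} {A B A' B' : E[X]} (h : IsCoprime A B) (h' : IsCoprime A' B')
    (e : A * B' = B * A') : ∃ c : E, c ≠ 0 ∧ A = C c * A' ∧ B = C c * B' := by
  have h1 : A ∣ A' := h.dvd_of_dvd_mul_left ⟨B', e.symm⟩
  have h2 : A' ∣ A := h'.dvd_of_dvd_mul_right ⟨B, by rw [e]; ring⟩
  have h3 : B ∣ B' := h.symm.dvd_of_dvd_mul_left ⟨A', e⟩
  have h4 : B' ∣ B := h'.symm.dvd_of_dvd_mul_right ⟨A, by rw [mul_comm B', e]⟩
  obtain ⟨u, hu⟩ := associated_of_dvd_dvd h1 h2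
  obtain ⟨w, hw⟩ := associated_of_dvd_dvd h3 h4
  obtain ⟨cu, hcu, hcu'⟩ := Polynomial.isUnit_iff.1 u.isUnit
  obtain ⟨cw, hcw, hcw'⟩ := Polynomial.isUnit_iff.1 w.isUnit
  have hcu0 := hcu.ne_zero
  have hcw0 := hcw.ne_zero
  have eA : A = C cu⁻¹ * A' := by
    rw [← hu, ← hcu', mul_comm A, ← mul_assoc, ← C_mul, inv_mul_cancel₀ hcu0, C_1, one_mul]
  have eB : B = C cw⁻¹ * B' := by
    rw [← hw, ← hcw', mul_comm B, ← mul_assoc, ← C_mul, inv_mul_cancel₀ hcw0, C_1, one_mul]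
  by_cases hA : A' = 0
  · refine ⟨cw⁻¹, inv_ne_zero hcw0, ?_, eB⟩
    rw [eA, hA]; simp
  by_cases hB : B' = 0
  · refine ⟨cu⁻¹, inv_ne_zero hcu0, eA, ?_⟩
    rw [eB, hB]; simp
  refine ⟨cu⁻¹, inv_ne_zero hcu0, eA, ?_⟩
  have : C cu⁻¹ * (A' * B') = C cw⁻¹ * (A' * B') := by
    calc C cu⁻¹ * (A' * B') = A * B' := by rw [← mul_assoc, ← eA]
      _ = B * A' := e
      _ = C cw⁻¹ * (A' * B') := by rw [eB]; ring
  have h5 := mul_right_cancel₀ (mul_ne_zero hA hB) this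
  rw [h5]
  exact eB

/-- the scalar form of the conjugation identity -/
theorem cj_sc {d : ℕ} (hd : 1 ≤ d) {μ : Mb E} {p q p' q' : E[X]} (hpq : RM d p q)
    (h : Cj d μ p q p' q') : ∃ c : E, c ≠ 0 ∧
      hcm d p (nu μ) (de μ) = C c * (C μ.α * p' + C μ.β * q') ∧
      hcm d q (nu μ) (de μ) = C c * (C μ.γ * p' + C μ.δ * q') :=
  rm_assoc (d := d) (rm_hcm hd hpq h.det).co (rm_lin h.rm h.det).co h.eq

theorem cj_of_sc {d : ℕ} {μ : Mb E} {p q p' q' : E[X]} (hμ : μ.det ≠ 0) (h : RM d p' q') (c : E)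
    (h1 : hcm d p (nu μ) (de μ) = C c * (C μ.α * p' + C μ.β * q'))
    (h2 : hcm d q (nu μ) (de μ) = C c * (C μ.γ * p' + C μ.δ * q')) : Cj d μ p q p' q' := by
  refine ⟨hμ, h, ?_⟩
  change hcm d p (nu μ) (de μ) * _ = hcm d q (nu μ) (de μ) * _
  rw [h1, h2]
  ring

/-- composition of Moebius maps -/
def mcomp (μ κ : Mb E) : Mb E :=
  ⟨μ.α * κ.α + μ.β * κ.γ, μ.α * κ.β + μ.β * κ.δ, μ.γ * κ.α + μ.δ * κ.γ, μ.γ * κ.β + μ.δ * κ.δ⟩

theorem det_mcomp (μ κ : Mb E) : (mcomp μ κ).det = μ.det * κ.det := by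
  simp only [mcomp, Mb.det]
  ring

theorem nu_mcomp (μ κ : Mb E) : nu (mcomp μ κ) = C μ.α * nu κ + C μ.β * de κ := by
  simp only [nu, de, mcomp, C_add, C_mul]
  ring

theorem de_mcomp (μ κ : Mb E) : de (mcomp μ κ) = C μ.γ * nu κ + C μ.δ * de κ := by
  simp only [nu, de, mcomp, C_add, C_mul]
  ring

theorem hcm_mcomp {d : ℕ} {A : E[X]} (μ κ : Mb E) (hκ : κ.det ≠ 0) :
    hcm d A (nu (mcomp μ κ)) (de (mcomp μ κ)) =
      hcm d (hcm d A (nu μ) (de μ)) (nu κ) (de κ) := by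
  rw [hcm_hcm (nu_deg μ) (de_deg μ) (de_ne hκ), nu_mcomp, de_mcomp]
  rw [nu.eq_def μ, de.eq_def μ, hcm_one_lin, hcm_one_lin]

theorem cj_comp {d : ℕ} (hd : 1 ≤ d) {μ κ : Mb E} {p q p' q' p'' q'' : E[X]} (hpq : RM d p q)
    (h₁ : Cj d μ p q p' q') (h₂ : Cj d κ p' q' p'' q'') : Cj d (mcomp μ κ) p q p'' q'' := by
  obtain ⟨c, hc, a1, a2⟩ := cj_sc hd hpq h₁
  obtain ⟨e, he, b1, b2⟩ := cj_sc hd h₁.rm h₂
  refine cj_of_sc (by rw [det_mcomp]; exact mul_ne_zero h₁.det h₂.det) h₂.rm (c * e) ?_ ?_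
  · rw [hcm_mcomp μ κ h₂.det, a1, hcm_Cmul, hcm_lin, b1, b2]
    simp only [mcomp, C_add, C_mul]
    ring
  · rw [hcm_mcomp μ κ h₂.det, a2, hcm_Cmul, hcm_lin, b1, b2]
    simp only [mcomp, C_add, C_mul]
    ring

/-- the image of a Moebius map under a homomorphism of fields -/
def mmap {F : Type v} [Field F] (f : E →+* F) (μ : Mb E) : Mb F := ⟨f μ.α, f μ.β, f μ.γ, f μ.δ⟩

theorem det_mmap {F : Type v} [Field F] (f : E →+* F) (μ : Mb E) : (mmap f μ).det = f μ.det := by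
  simp only [mmap, Mb.det, map_sub, map_mul]

theorem rm_map {F : Type v} [Field F] (f : E →+* F) {d : ℕ} {p q : E[X]} :
    RM d (p.map f) (q.map f) ↔ RM d p q := by
  constructor
  · rintro ⟨h1, h2⟩
    refine ⟨(isCoprime_map f).1 h1, ?_⟩
    rwa [natDegree_map, natDegree_map] at h2
  · rintro ⟨h1, h2⟩
    refine ⟨(isCoprime_map f).2 h1, ?_⟩
    rwa [natDegree_map, natDegree_map]

theorem cj_map {F : Type v} [Field F] (f : E →+* F) {d : ℕ} {μ : Mb E} {p q p' q' : E[X]}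
    (h : Cj d μ p q p' q') :
    Cj d (mmap f μ) (p.map f) (q.map f) (p'.map f) (q'.map f) := by
  refine ⟨?_, (rm_map f).2 h.rm, ?_⟩
  · rw [det_mmap]
    exact (map_ne_zero f).2 h.det
  · have := congrArg (Polynomial.map f) h.eq
    simpa only [Polynomial.map_mul, hcm_map, Polynomial.map_add, map_C, map_X, mmap] using this

theorem nu_eval (μ : Mb E) (z : E) : (nu μ).eval z = μ.α * z + μ.β := by simp [nu]

theorem de_eval (μ : Mb E) (z : E) : (de μ).eval z = μ.den z := by simp [de, Mb.den]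

theorem hcm_eval {d : ℕ} {A : E[X]} (hA : A.natDegree ≤ d) {μ : Mb E} {z : E} (hz : μ.den z ≠ 0) :
    (hcm d A (nu μ) (de μ)).eval z = μ.den z ^ d * A.eval (μ.app z) := by
  rw [Pool.Agent.Q24.SU.hcm_eval hA (by rw [de_eval]; exact hz), de_eval, nu_eval, Mb.app]

end Pool.Agent.Q229.SP
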